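import Pool.Agent.T6.H9.NA.Defs

/-!
# Definitions for the average of the Nagao sums of the twists of a fibration

Owner helper9.
-/

set_option autoImplicit false

open NumberField IsDedekindDomain Polynomial

namespace Pool.Agent.T6.H9.NagaoAvg

variable {K : Type} [Field K] [NumberField K]

/-- The polynomial `s = ∑_e c(e) t^e` in `t_1, ..., t_m`, of degree at most `n` in every `t_j`. -/
noncomputable def sPoly {m n : ℕ} (c : (Fin m → Fin (n + 1)) → 𝓞 K) : MvPolynomial (Fin m) (𝓞 K) :=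
  ∑ e : Fin m → Fin (n + 1), MvPolynomial.C (c e) * ∏ j, MvPolynomial.X j ^ (e j : ℕ)

/-- The fibration `y² = G(s(t), t) F(x, t)`, the quadratic twist of the fibration `y² = F(x, t)` by
`D(t) = G(s(t), t)`. -/
noncomputable def twist {m : ℕ} (G F : (MvPolynomial (Fin m) (𝓞 K))[X])
    (s : MvPolynomial (Fin m) (𝓞 K)) : (MvPolynomial (Fin m) (𝓞 K))[X] :=
  C (G.eval s) * F

/-- `q - #{(x, y) : y² = f(x, t)}` over the residue field at `v`, `q = N v`. -/
noncomputable def fibreTrace {m : ℕ} (f : (MvPolynomial (Fin m) (𝓞 K))[X])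
    (v : HeightOneSpectrum (𝓞 K)) (t : Fin m → 𝓞 K ⧸ v.asIdeal) : ℝ :=
  (Ideal.absNorm v.asIdeal : ℝ) -
    (Nat.card {p : (𝓞 K ⧸ v.asIdeal) × (𝓞 K ⧸ v.asIdeal) // p.2 ^ 2 = (spec f v t).eval p.1} : ℝ)

/-- The correlation of the traces of the fibres of `y² = G(x, t)` and `y² = F(x, t)` over the base
`I = 0` of dimension `d`: `q^{-d-1} ∑_t (q - #{y² = G(x, t)}) (q - #{y² = F(x, t)})`. -/
noncomputable def correlation {m : ℕ} (I : Set (MvPolynomial (Fin m) (𝓞 K))) (d : ℕ)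
    (G F : (MvPolynomial (Fin m) (𝓞 K))[X]) (v : HeightOneSpectrum (𝓞 K)) : ℝ :=
  (∑ᶠ t ∈ base I v, fibreTrace G v t * fibreTrace F v t) /
    (Ideal.absNorm v.asIdeal : ℝ) ^ (d + 1)

end Pool.Agent.T6.H9.NagaoAvg
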