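import Pool.Agent.T6.H9.NT.Defs
import Pool.Agent.T6.H9.NA.Main
import Pool.Agent.T6.H9.PA.Loc

/-!
# The average of the Nagao sums of the twists of a fibration

Owner helper9.
-/

set_option autoImplicit false
set_option linter.unusedSectionVars false
set_option linter.style.haveILetI false
set_option linter.unusedVariables false

open Finset NumberField IsDedekindDomain Polynomial

namespace Pool.Agent.T6.H9.NT

open Pool.Agent.T6.H9.MV Pool.Agent.T6.H9.HY Pool.Agent.T6.H9.QM Pool.Agent.T6.H9.NagaoAvg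
  Pool.Agent.T6.H9.NA Pool.Agent.T6.H9.PA

section local_

variable {F : Type} [Field F] [Fintype F] [DecidableEq F] {m n : ℕ}

/-- value of a polynomial in `t` with given coefficients -/
def lt (t : Fin m → F) : ((Fin m → Fin (n + 1)) → F) →+ F where
  toFun c := ∑ e : Fin m → Fin (n + 1), c e * ∏ j, t j ^ (e j : ℕ)
  map_zero' := by simp
  map_add' c d := by
    rw [← Finset.sum_add_distrib]
    refine Finset.sum_congr rfl fun e _ => ?_
    rw [Pi.add_apply, add_mul]

lemma lt_apply (t : Fin m → F) (c : (Fin m → Fin (n + 1)) → F) :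
    lt t c = ∑ e : Fin m → Fin (n + 1), c e * ∏ j, t j ^ (e j : ℕ) := rfl

lemma lt_single (t : Fin m → F) (e : Fin m → Fin (n + 1)) (a : F) :
    lt t (Pi.single e a) = a * ∏ j, t j ^ (e j : ℕ) := by
  rw [lt_apply, Fintype.sum_eq_single e]
  · rw [Pi.single_eq_same]
  · intro e' he'
    rw [Pi.single_eq_of_ne he', zero_mul]

lemma lt_surj (t : Fin m → F) : Function.Surjective (lt (n := n) t) := by
  intro a
  refine ⟨Pi.single (fun _ => 0) a, ?_⟩
  rw [lt_single]
  simp

lemma lt2_surj (hn : 1 ≤ n) {t t' : Fin m → F} (hne : t ≠ t') :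
    Function.Surjective ((lt (n := n) t).prod (lt t')) := by
  obtain ⟨j, hj⟩ := Function.ne_iff.1 hne
  have hd : t j - t' j ≠ 0 := sub_ne_zero.2 hj
  have he : ∀ r : Fin m → F, ∏ i, r i ^ ((Pi.single j (⟨1, by omega⟩ : Fin (n + 1)) :
      Fin m → Fin (n + 1)) i : ℕ) = r j := by
    intro r
    rw [Fintype.prod_eq_single j]
    · rw [Pi.single_eq_same, pow_one]
    · intro i hi
      rw [Pi.single_eq_of_ne hi, Fin.val_zero, pow_zero]
  rintro ⟨α, α'⟩
  refine ⟨Pi.single (fun _ => 0) ((t j * α' - t' j * α) / (t j - t' j)) +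
    Pi.single (Pi.single j (⟨1, by omega⟩ : Fin (n + 1))) ((α - α') / (t j - t' j)), ?_⟩
  rw [map_add]
  refine Prod.ext ?_ ?_
  · change lt t _ + lt t _ = α
    rw [lt_single, lt_single, he]
    simp only [Fin.val_zero, pow_zero, Finset.prod_const_one, mul_one]
    field_simp
    ring
  · change lt t' _ + lt t' _ = α'
    rw [lt_single, lt_single, he]
    simp only [Fin.val_zero, pow_zero, Finset.prod_const_one, mul_one]
    field_simp
    ring

/-- the centred value of the character -/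
noncomputable def ce (g : F[X]) (u : F) : ℝ := chi (g.eval u) - cs g / (Fintype.card F : ℝ)

lemma ce_mean (g : F[X]) : rmean (ce g) = 0 := by
  have hc := NA.card_pos' (F := F)
  rw [rmean_eq]
  unfold ce cs
  rw [Finset.sum_sub_distrib, Finset.sum_const, Finset.card_univ, nsmul_eq_mul]
  field_simp
  simp

lemma ce_abs (g : F[X]) (u : F) : |ce g u| ≤ 2 := by
  have hc := NA.card_pos' (F := F)
  unfold ce
  refine (abs_sub _ _).trans ?_
  have h1 := chi_abs (g.eval u)
  have h2 : |cs g / (Fintype.card F : ℝ)| ≤ 1 := by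
    rw [abs_div, abs_of_nonneg (by linarith : (0 : ℝ) ≤ Fintype.card F), div_le_one (by linarith)]
    unfold cs
    refine (Finset.abs_sum_le_sum_abs _ _).trans
      ((Finset.sum_le_sum fun x _ => chi_abs (g.eval x)).trans (le_of_eq ?_))
    simp
  linarith

/-- the local function -/
noncomputable def Wl (T : Finset (Fin m → F)) (d : ℕ) (g f : (Fin m → F) → F[X])
    (c : (Fin m → Fin (n + 1)) → F) : ℝ :=
  (1 / (Fintype.card F : ℝ) ^ d) * ∑ t ∈ T, cs (f t) * ce (g t) (lt t c)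

variable {T : Finset (Fin m → F)} {d : ℕ} {g f : (Fin m → F) → F[X]}

lemma Wl_mean : rmean (Wl (n := n) T d g f) = 0 := by
  unfold Wl
  rw [rmean_const_mul, pair_zero, mul_zero]
  intro t _
  rw [rmean_const_mul, marg (lt t) (lt_surj t) (ce (g t)), ce_mean, mul_zero]

lemma Wl_sq (hn : 1 ≤ n) {A M : ℝ} (hM : 0 ≤ M)
    (hf : ∀ t ∈ T, |cs (f t)| ≤ M * √(Fintype.card F : ℝ))
    (hT : (T.card : ℝ) ≤ A * (Fintype.card F : ℝ) ^ d) :
    rmean (fun c => Wl (n := n) T d g f c ^ 2) ≤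
      (4 * M ^ 2 * A) * ((Fintype.card F : ℝ) / (Fintype.card F : ℝ) ^ d) := by
  have hc := NA.card_pos' (F := F)
  have hq0 : (0 : ℝ) < Fintype.card F := by linarith
  have hq : (0 : ℝ) < (Fintype.card F : ℝ) ^ d := by positivity
  have e1 : (fun c => Wl (n := n) T d g f c ^ 2) = fun c => (1 / (Fintype.card F : ℝ) ^ d) ^ 2 *
      (∑ t ∈ T, cs (f t) * ce (g t) (lt t c)) ^ 2 := by
    funext c
    unfold Wl
    rw [mul_pow]
  rw [e1, rmean_const_mul]
  have h1 := pair_sq T (fun t (c : (Fin m → Fin (n + 1)) → F) => cs (f t) * ce (g t) (lt t c))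
    (τ := 4 * M ^ 2 * (Fintype.card F : ℝ))
    (fun t _ t' _ hne => by
      have h2 := indep ((lt (n := n) t).prod (lt t')) (lt2_surj hn hne) (ce (g t)) (ce (g t'))
      rw [ce_mean, zero_mul] at h2
      have h3 : (fun c : (Fin m → Fin (n + 1)) → F =>
          cs (f t) * ce (g t) (lt t c) * (cs (f t') * ce (g t') (lt t' c))) =
          fun c => (cs (f t) * cs (f t')) * (ce (g t) (lt t c) * ce (g t') (lt t' c)) := by
        funext c
        ring
      rw [h3, rmean_const_mul]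
      have h4 : rmean (fun c : (Fin m → Fin (n + 1)) → F =>
          ce (g t) (lt t c) * ce (g t') (lt t' c)) = 0 := h2
      rw [h4, mul_zero])
    (fun t ht => by
      refine rmean_le fun c => ?_
      have h2 : |cs (f t) * ce (g t) (lt t c)| ≤ M * √(Fintype.card F : ℝ) * 2 := by
        rw [abs_mul]
        exact mul_le_mul (hf t ht) (ce_abs _ _) (abs_nonneg _) (by positivity)
      rw [← sq, ← sq_abs]
      refine (pow_le_pow_left₀ (abs_nonneg _) h2 2).trans (le_of_eq ?_)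
      rw [mul_pow, mul_pow, Real.sq_sqrt hq0.le]
      ring)
  have h2 : (T.card : ℝ) * (4 * M ^ 2 * (Fintype.card F : ℝ)) ≤
      A * (Fintype.card F : ℝ) ^ d * (4 * M ^ 2 * (Fintype.card F : ℝ)) :=
    mul_le_mul_of_nonneg_right hT (by positivity)
  refine (mul_le_mul_of_nonneg_left (h1.trans h2) (sq_nonneg _)).trans (le_of_eq ?_)
  field_simp

lemma Wl_abs {A M : ℝ} (hM : 0 ≤ M) (hf : ∀ t ∈ T, |cs (f t)| ≤ M * √(Fintype.card F : ℝ))
    (hT : (T.card : ℝ) ≤ A * (Fintype.card F : ℝ) ^ d) (c : (Fin m → Fin (n + 1)) → F) :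
    |Wl T d g f c| ≤ (2 * M * A) * √(Fintype.card F : ℝ) := by
  have hc := NA.card_pos' (F := F)
  have hq : (0 : ℝ) < (Fintype.card F : ℝ) ^ d := by positivity
  unfold Wl
  rw [abs_mul, abs_of_nonneg (by positivity : (0 : ℝ) ≤ 1 / (Fintype.card F : ℝ) ^ d)]
  have h1 : |∑ t ∈ T, cs (f t) * ce (g t) (lt t c)| ≤
      (T.card : ℝ) * (M * √(Fintype.card F : ℝ) * 2) := by
    refine (Finset.abs_sum_le_sum_abs _ _).trans ?_
    have h2 : ∀ t ∈ T, |cs (f t) * ce (g t) (lt t c)| ≤ M * √(Fintype.card F : ℝ) * 2 := by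
      intro t ht
      rw [abs_mul]
      exact mul_le_mul (hf t ht) (ce_abs _ _) (abs_nonneg _) (by positivity)
    refine (Finset.sum_le_sum h2).trans (le_of_eq ?_)
    rw [Finset.sum_const, nsmul_eq_mul]
  have h2 : (T.card : ℝ) * (M * √(Fintype.card F : ℝ) * 2) ≤
      A * (Fintype.card F : ℝ) ^ d * (M * √(Fintype.card F : ℝ) * 2) :=
    mul_le_mul_of_nonneg_right hT (by positivity)
  refine (mul_le_mul_of_nonneg_left (h1.trans h2) (by positivity)).trans (le_of_eq ?_)
  field_simp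

lemma chi_mul (a b : F) : chi (a * b) = chi a * chi b := by
  unfold chi
  rw [map_mul]
  push_cast
  rfl

/-- the number of points in terms of the character sum -/
lemma trace_cs (hF : ringChar F ≠ 2) (f : F[X]) : (Fintype.card F : ℝ) -
    (Nat.card {p : F × F // p.2 ^ 2 = f.eval p.1} : ℝ) = -cs f := by
  rw [card_sol hF (fun x => f.eval x), Finset.sum_add_distrib, Finset.sum_const, Finset.card_univ,
    nsmul_eq_mul]
  unfold cs
  ring

lemma cs_C_mul (a : F) (f : F[X]) : cs (C a * f) = chi a * cs f := by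
  unfold cs
  rw [Finset.mul_sum]
  refine Finset.sum_congr rfl fun x _ => ?_
  rw [Polynomial.eval_mul, Polynomial.eval_C, chi_mul]

end local_

section global

variable {K : Type} [Field K] [NumberField K] {m n : ℕ}

lemma spec_eval (G : (MvPolynomial (Fin m) (𝓞 K))[X]) (s : MvPolynomial (Fin m) (𝓞 K))
    (v : HeightOneSpectrum (𝓞 K)) (t : Fin m → kv v) :
    MvPolynomial.eval₂Hom (Ideal.Quotient.mk v.asIdeal) t (G.eval s) =
      (spec G v t).eval (MvPolynomial.eval₂Hom (Ideal.Quotient.mk v.asIdeal) t s) := by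
  unfold spec
  rw [Polynomial.eval_map]
  exact Polynomial.hom_eval₂ G (RingHom.id _)
    (MvPolynomial.eval₂Hom (Ideal.Quotient.mk v.asIdeal) t) s

lemma sPoly_eval (c : (Fin m → Fin (n + 1)) → 𝓞 K) (v : HeightOneSpectrum (𝓞 K))
    (t : Fin m → kv v) :
    MvPolynomial.eval₂Hom (Ideal.Quotient.mk v.asIdeal) t (sPoly c) = lt t (redG v _ c) := by
  unfold sPoly
  rw [map_sum, lt_apply]
  refine Finset.sum_congr rfl fun e _ => ?_
  rw [map_mul, map_prod, MvPolynomial.coe_eval₂Hom, MvPolynomial.eval₂_C]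
  congr 1
  refine Finset.prod_congr rfl fun j _ => ?_
  rw [MvPolynomial.eval₂_pow, MvPolynomial.eval₂_X]

lemma spec_twist (G F : (MvPolynomial (Fin m) (𝓞 K))[X]) (c : (Fin m → Fin (n + 1)) → 𝓞 K)
    (v : HeightOneSpectrum (𝓞 K)) (t : Fin m → kv v) :
    spec (twist G F (sPoly c)) v t = C ((spec G v t).eval (lt t (redG v _ c))) * spec F v t := by
  unfold twist
  rw [spec_mul]
  congr 1
  have h1 : spec (C (G.eval (sPoly c))) v t =
      C (MvPolynomial.eval₂Hom (Ideal.Quotient.mk v.asIdeal) t (G.eval (sPoly c))) := by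
    unfold spec
    rw [Polynomial.map_C]
  rw [h1, spec_eval, sPoly_eval]

variable (I : Set (MvPolynomial (Fin m) (𝓞 K))) (d : ℕ)

lemma trace_eq (f : (MvPolynomial (Fin m) (𝓞 K))[X]) {v : HeightOneSpectrum (𝓞 K)}
    (h : (2 : 𝓞 K) ∉ v.asIdeal) (t : Fin m → kv v) : fibreTrace f v t = -cs (spec f v t) := by
  have h1 := trace_cs (F := kv v) (char_ne_two h) (spec f v t)
  rw [card_kv'] at h1
  exact h1

/-- the fibre average in terms of the local function -/
lemma avg_eq (G F : (MvPolynomial (Fin m) (𝓞 K))[X]) (c : (Fin m → Fin (n + 1)) → 𝓞 K)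
    {v : HeightOneSpectrum (𝓞 K)} (h : (2 : 𝓞 K) ∉ v.asIdeal) :
    fibreAverage I d (twist G F (sPoly c)) v + correlation I d G F v =
      -Wl (bs I v) d (spec G v) (spec F v) (redG v _ c) := by
  classical
  have hq : (0 : ℝ) < qv v := by linarith [one_le_qvR v]
  have h1 : fibreAverage I d (twist G F (sPoly c)) v =
      (∑ t ∈ bs I v, -(chi ((spec G v t).eval (lt t (redG v _ c))) * cs (spec F v t))) /
        (qv v : ℝ) ^ d := by
    unfold fibreAverage
    rw [← bs_coe, finsum_mem_coe_finset]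
    congr 1
    refine Finset.sum_congr rfl fun t _ => ?_
    have h2 := trace_cs (F := kv v) (char_ne_two h) (spec (twist G F (sPoly c)) v t)
    rw [card_kv'] at h2
    refine h2.trans ?_
    rw [spec_twist, cs_C_mul]
  have h2 : correlation I d G F v =
      (∑ t ∈ bs I v, cs (spec G v t) * cs (spec F v t)) / (qv v : ℝ) ^ (d + 1) := by
    unfold correlation
    rw [← bs_coe, finsum_mem_coe_finset]
    congr 1
    refine Finset.sum_congr rfl fun t _ => ?_
    rw [trace_eq G h, trace_eq F h]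
    ring
  rw [h1, h2]
  unfold Wl ce
  rw [card_kv', Finset.mul_sum, Finset.sum_div, Finset.sum_div, ← Finset.sum_add_distrib,
    ← Finset.sum_neg_distrib]
  refine Finset.sum_congr rfl fun t _ => ?_
  rw [pow_succ]
  field_simp
  ring

open Classical in
/-- the local functions at all places -/
noncomputable def Wg (n : ℕ) (I : Set (MvPolynomial (Fin m) (𝓞 K))) (d : ℕ)
    (G F : (MvPolynomial (Fin m) (𝓞 K))[X])
    (v : HeightOneSpectrum (𝓞 K)) (a : (Fin m → Fin (n + 1)) → kv v) : ℝ :=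
  if (2 : 𝓞 K) ∈ v.asIdeal then 0 else
    -Wl (bs I v) d (spec G v) (spec F v) a

lemma Wg_mean (G F : (MvPolynomial (Fin m) (𝓞 K))[X]) (v : HeightOneSpectrum (𝓞 K)) :
    rmean (Wg n I d G F v) = 0 := by
  unfold Wg
  split_ifs with h
  · rw [rmean_eq]
    simp
  · have h1 := rmean_const_mul (-1) (Wl (n := n) (bs I v) d (spec G v) (spec F v))
    simp only [neg_mul, one_mul] at h1
    rw [h1, Wl_mean, neg_zero]

variable {A : ℝ} (hA : 0 ≤ A)
  (hI : ∀ v : HeightOneSpectrum (𝓞 K), ((base I v).ncard : ℝ) ≤ A * (qv v : ℝ) ^ d)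
  {F : (MvPolynomial (Fin m) (𝓞 K))[X]} (hF : F.Monic) (hodd : Odd F.natDegree)

include hF hodd in
lemma cs_spec {v : HeightOneSpectrum (𝓞 K)} (h : (2 : 𝓞 K) ∉ v.asIdeal) (t : Fin m → kv v) :
    |cs (spec F v t)| ≤ (F.natDegree : ℝ) * √(Fintype.card (kv v) : ℝ) := by
  have hd : (spec F v t).natDegree = F.natDegree := by
    unfold spec
    exact hF.natDegree_map _
  have h1 := cs_abs (char_ne_two h) (f := spec F v t) (by rwa [hd])
  rw [hd] at h1
  refine h1.trans (mul_le_mul_of_nonneg_right ?_ (Real.sqrt_nonneg _))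
  linarith

include hA hI hF hodd in
lemma Wg_sq (hn : 1 ≤ n) (G : (MvPolynomial (Fin m) (𝓞 K))[X]) (v : HeightOneSpectrum (𝓞 K)) :
    rmean (fun a => Wg n I d G F v a ^ 2) ≤
      (4 * (F.natDegree : ℝ) ^ 2 * A) * (qv v : ℝ) ^ (2 * NA.ex d - 1) := by
  have hq1 := one_le_qvR v
  have hq : (0 : ℝ) < qv v := by linarith
  have h0 : 0 ≤ (qv v : ℝ) ^ (2 * NA.ex d - 1) := Real.rpow_nonneg hq.le _
  unfold Wg
  split_ifs with h
  · rw [rmean_eq]
    simp only [ne_eq, OfNat.ofNat_ne_zero, not_false_eq_true, zero_pow, Finset.sum_const_zero,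
      zero_div]
    positivity
  · simp only [neg_sq]
    have hT := hI v
    rw [card_bs, ← card_kv'] at hT
    refine (Wl_sq hn (Nat.cast_nonneg _) (fun t _ => cs_spec hF hodd h t) hT).trans ?_
    rw [card_kv']
    refine mul_le_mul_of_nonneg_left ?_ (by positivity)
    have h1 : (qv v : ℝ) / (qv v : ℝ) ^ d = (qv v : ℝ) ^ (1 - (d : ℝ)) := by
      rw [Real.rpow_sub hq, Real.rpow_one, Real.rpow_natCast]
    rw [h1]
    refine Real.rpow_le_rpow_of_exponent_le hq1 ?_
    have h2 : 1 - (d : ℝ) / 2 ≤ NA.ex d := le_max_right _ _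
    linarith

include hA hI hF hodd in
lemma Wg_abs (G : (MvPolynomial (Fin m) (𝓞 K))[X]) (v : HeightOneSpectrum (𝓞 K))
    (a : (Fin m → Fin (n + 1)) → kv v) :
    |Wg n I d G F v a| ≤ (2 * (F.natDegree : ℝ) * A) * (qv v : ℝ) ^ (1 / 2 : ℝ) := by
  have hq1 := one_le_qvR v
  rw [← Real.sqrt_eq_rpow]
  unfold Wg
  split_ifs with h
  · rw [abs_zero]
    positivity
  · rw [abs_neg]
    have hT := hI v
    rw [card_bs, ← card_kv'] at hT
    have h1 := Wl_abs (g := spec G v) (Nat.cast_nonneg _)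
      (fun t (_ : t ∈ bs I v) => cs_spec hF hodd h t) hT a
    rwa [card_kv'] at h1

variable {ι : Type} [Fintype ι]

include hA hI hF hodd in
/-- **The almost-all theorem for the Nagao sums of the twists.** -/
theorem main (ω : Module.Basis ι ℤ (𝓞 K)) (hn : 1 ≤ n) {δ : ℝ} (hδ : 0 < δ)
    (G : (MvPolynomial (Fin m) (𝓞 K))[X]) :
    ∃ L : ℝ, 0 < L ∧ ∀ (N : ℕ) (B : (Fin m → Fin (n + 1)) × ι → ℕ), (∀ j, N ≤ B j) →
      ∀ X₀ : ℝ, 1 ≤ X₀ →
      ({c : (Fin m → Fin (n + 1)) → 𝓞 K | c ∈ Box ω B ∧ ∃ X : ℕ, X₀ ≤ X ∧ X ^ 5 ≤ N ∧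
        (X : ℝ) ^ (max 0 (1 - (d : ℝ) / 2) + δ) < |∑ᶠ v ∈ primes K X,
          (fibreAverage I d (twist G F (sPoly c)) v + correlation I d G F v) *
            Real.log (Ideal.absNorm v.asIdeal)|}.ncard : ℝ) ≤
        L * X₀ ^ (-δ) * ((Box ω B).ncard : ℝ) := by
  classical
  obtain ⟨C, hC0, hC⟩ := almost_all_set (κ := Fin m → Fin (n + 1)) ω (ex_nonneg d)
    (by norm_num : (0 : ℝ) ≤ 1 / 2) (c₁ := 4 * (F.natDegree : ℝ) ^ 2 * A)
    (c₂ := 2 * (F.natDegree : ℝ) * A) (C' := 0) (by positivity) (by positivity) hδ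
    (fun v => Wg n I d G F v) (Wg_mean I d G F) (Wg_sq I d hA hI hF hodd hn G)
    (Wg_abs I d hA hI hF hodd G)
    (fun c X => ∑ᶠ v ∈ primes K X, (fibreAverage I d (twist G F (sPoly c)) v +
      correlation I d G F v) * Real.log (Ideal.absNorm v.asIdeal))
    (fun c X hX => by
      rw [finsum_primes, ← Finset.sum_sub_distrib, zero_mul]
      refine le_of_eq ?_
      rw [abs_eq_zero]
      refine Finset.sum_eq_zero fun v _ => ?_
      unfold Wg
      split_ifs with h
      · rw [mul_zero, sub_zero]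
      · rw [avg_eq I d G F c h]
        change -Wl (bs I v) d (spec G v) (spec F v) (redG v _ c) * Real.log (qv v) -
          Real.log (qv v) * -Wl (bs I v) d (spec G v) (spec F v) (redG v _ c) = 0
        ring)
  refine ⟨C, hC0, fun N B hB X₀ hX₀ => ?_⟩
  have h1 := hC N B hB X₀ hX₀
  refine le_trans (le_of_eq ?_) h1
  congr 2
  ext c
  have h2 : ∀ X : ℕ, ((X : ℝ) ^ (2 * (1 / 2 : ℝ) + 4) ≤ N ↔ X ^ 5 ≤ N) := by
    intro X
    have h3 : (2 * (1 / 2 : ℝ) + 4) = ((5 : ℕ) : ℝ) := by norm_num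
    rw [h3, Real.rpow_natCast]
    exact_mod_cast Iff.rfl
  simp only [h2]
  rfl

/-- the correlation vanishes for `G = x` -/
lemma correlation_X (F : (MvPolynomial (Fin m) (𝓞 K))[X]) {v : HeightOneSpectrum (𝓞 K)}
    (h : (2 : 𝓞 K) ∉ v.asIdeal) : correlation I d X F v = 0 := by
  have h1 : ∀ t : Fin m → kv v, fibreTrace (X : (MvPolynomial (Fin m) (𝓞 K))[X]) v t = 0 := by
    intro t
    rw [trace_eq X h]
    have h2 : spec (X : (MvPolynomial (Fin m) (𝓞 K))[X]) v t = X := by
      unfold spec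
      rw [Polynomial.map_X]
    rw [h2]
    unfold cs
    simp only [Polynomial.eval_X]
    rw [chi_sum (char_ne_two h), neg_zero]
  unfold correlation
  simp only [h1, zero_mul, finsum_zero, zero_div]

end global

end Pool.Agent.T6.H9.NT
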